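import Pool.Agent.Lib.H47A.EAct

/-! # H47F: generic choice of normals -/

open Set

namespace Pool.Agent.H47F

open H47A

theorem dense_ne (w : E3) (c : ℝ) (hw : w ≠ 0) : Dense {x : E3 | inner ℝ w x ≠ c} := by
  rw [Metric.dense_iff]
  intro x r hr
  by_cases h : inner ℝ w x = c
  · have hn : 0 < ‖w‖ := norm_pos_iff.2 hw
    refine ⟨x + (r / 2 / ‖w‖) • w, ?_, ?_⟩
    · rw [Metric.mem_ball, dist_eq_norm, add_sub_cancel_left, norm_smul, Real.norm_of_nonneg (by positivity),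
        div_mul_cancel₀ _ hn.ne']
      linarith
    · show inner ℝ w (x + (r / 2 / ‖w‖) • w) ≠ c
      rw [inner_add_right, inner_smul_right, real_inner_self_eq_norm_sq, h]
      have : 0 < r / 2 / ‖w‖ * ‖w‖ ^ 2 := by positivity
      linarith
  · exact ⟨x, Metric.mem_ball_self hr, h⟩

theorem open_ne (w : E3) (c : ℝ) : IsOpen {x : E3 | inner ℝ w x ≠ c} :=
  isOpen_ne_fun (by fun_prop) continuous_const

/-- Simultaneous avoidance of finitely many planes. -/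
theorem avoid {ι : Type} [Fintype ι] (w : ι → E3) (c : ι → ℝ) (v : E3) {r : ℝ} (hr : 0 < r) :
    ∃ x ∈ Metric.ball v r, ∀ i, w i ≠ 0 → inner ℝ (w i) x ≠ c i := by
  have hd : Dense (⋂ i : {i : ι // w i ≠ 0}, {x : E3 | inner ℝ (w i) x ≠ c i}) :=
    dense_iInter_of_isOpen (fun i => open_ne _ _) (fun i => dense_ne _ _ i.2)
  obtain ⟨x, hx, hxb⟩ := hd.inter_open_nonempty (Metric.ball v r) Metric.isOpen_ball ⟨v, Metric.mem_ball_self hr⟩
  · refine ⟨x, hx, fun i hi => ?_⟩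
    have := Set.mem_iInter.1 hxb ⟨i, hi⟩
    exact this

/-- Conditions for increasing indices. -/
structure Cnd {N : ℕ} (n : Fin N → E3) : Prop where
  c1 : ∀ i, n i ≠ 0
  c2 : ∀ i j, i < j → cross3 (n i) (n j) ≠ 0
  c3 : ∀ i j k, i < j → j < k → det3 (n i) (n j) (n k) ≠ 0
  c4 : ∀ i j k l, i < j → j < k → k < l → ∀ b1 b2 b3 b4 : Bool, ∀ u : E3,
    ¬ (lf n (i, b1) u = 1 ∧ lf n (j, b2) u = 1 ∧ lf n (k, b3) u = 1 ∧ lf n (l, b4) u = 1)

theorem cross_ne_of {v x w : E3} (hv : v ≠ 0) (hw : inner ℝ v w = 0) (hx : inner ℝ w x ≠ 0) : cross3 v x ≠ 0 := by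
  intro h
  apply hx
  have h0 : v 1 * x 2 - v 2 * x 1 = 0 := by have := congrFun (congrArg WithLp.ofLp h) 0; simpa [evec_c0] using this
  have h1 : v 2 * x 0 - v 0 * x 2 = 0 := by have := congrFun (congrArg WithLp.ofLp h) 1; simpa [evec_c1] using this
  have h2 : v 0 * x 1 - v 1 * x 0 = 0 := by have := congrFun (congrArg WithLp.ofLp h) 2; simpa [evec_c2] using this
  rw [inner3] at hw ⊢
  have e0 : v 0 * (w 0 * x 0 + w 1 * x 1 + w 2 * x 2) = 0 := by linear_combination x 0 * hw + w 1 * h2 - w 2 * h1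
  have e1 : v 1 * (w 0 * x 0 + w 1 * x 1 + w 2 * x 2) = 0 := by linear_combination x 1 * hw - w 0 * h2 + w 2 * h0
  have e2 : v 2 * (w 0 * x 0 + w 1 * x 1 + w 2 * x 2) = 0 := by linear_combination x 2 * hw + w 0 * h1 - w 1 * h0
  by_contra hne
  apply hv
  rcases mul_eq_zero.1 e0 with a | a
  · rcases mul_eq_zero.1 e1 with b | b
    · rcases mul_eq_zero.1 e2 with c | c
      · exact evec_ext (by simpa using a) (by simpa using b) (by simpa using c)
      · exact absurd c hne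
    · exact absurd b hne
  · exact absurd a hne

theorem lf_castSucc {N : ℕ} (n : Fin N → E3) (x : E3) (i : Fin N) (b : Bool) (u : E3) :
    lf (Fin.snoc n x : Fin (N + 1) → E3) (i.castSucc, b) u = lf n (i, b) u := by
  simp [lf, nn]

theorem lf_last {N : ℕ} (n : Fin N → E3) (x : E3) (b : Bool) (u : E3) :
    lf (Fin.snoc n x : Fin (N + 1) → E3) (Fin.last N, b) u = if b then inner ℝ x u else -inner ℝ x u := by
  cases b <;> simp [lf, nn]

theorem lf_ker {N : ℕ} {n : Fin N → E3} {i : Fin N} {b : Bool} {u u' : E3} (h : lf n (i, b) u = 1)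
    (h' : lf n (i, b) u' = 1) : inner ℝ (n i) (u - u') = 0 := by
  cases b <;> simp [lf, nn, inner_sub_right] at h h' ⊢ <;> linarith


theorem eq_zero_of_ker {a b c x : E3} (h : det3 a b c ≠ 0) (ha : inner ℝ a x = 0) (hb : inner ℝ b x = 0)
    (hc : inner ℝ c x = 0) : x = 0 := by
  have := cramer a b c x
  rw [ha, hb, hc, zero_smul, zero_smul, zero_smul, add_zero, add_zero] at this
  exact (smul_eq_zero.1 this).resolve_left h

open Classical in
/-- The common point of three signed planes. -/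
noncomputable def cp {N : ℕ} (n : Fin N → E3) (t : (Fin N × Bool) × (Fin N × Bool) × (Fin N × Bool)) : E3 :=
  if h : ∃ u, lf n t.1 u = 1 ∧ lf n t.2.1 u = 1 ∧ lf n t.2.2 u = 1 then h.choose else 0

theorem cp_eq {N : ℕ} {n : Fin N → E3} (h : Cnd n) {i j k : Fin N} (hij : i < j) (hjk : j < k) {b1 b2 b3 : Bool} {u : E3}
    (h1 : lf n (i, b1) u = 1) (h2 : lf n (j, b2) u = 1) (h3 : lf n (k, b3) u = 1) :
    cp n ((i, b1), (j, b2), (k, b3)) = u := by
  have hex : ∃ u, lf n (i, b1) u = 1 ∧ lf n (j, b2) u = 1 ∧ lf n (k, b3) u = 1 := ⟨u, h1, h2, h3⟩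
  have he : cp n ((i, b1), (j, b2), (k, b3)) = hex.choose := by
    unfold cp
    exact dif_pos hex
  rw [he]
  obtain ⟨g1, g2, g3⟩ := hex.choose_spec
  exact sub_eq_zero.1 (eq_zero_of_ker (h.c3 i j k hij hjk) (lf_ker g1 h1) (lf_ker g2 h2) (lf_ker g3 h3))

/-- One more normal. -/
theorem step {N : ℕ} {n : Fin N → E3} (h : Cnd n) (v : E3) {r : ℝ} (hr : 0 < r) :
    ∃ x ∈ Metric.ball v r, Cnd (Fin.snoc n x : Fin (N + 1) → E3) := by
  obtain ⟨w0, hw0, -, -⟩ := eact_orth 0 0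
  choose w hw hwn _ using fun i : Fin N => eact_orth (n i) (n i)
  let ι : Type := Unit ⊕ Fin N ⊕ (Fin N × Fin N) ⊕ (((Fin N × Bool) × (Fin N × Bool) × (Fin N × Bool)) × Bool)
  let W : ι → E3 := fun i => match i with
    | Sum.inl _ => w0
    | Sum.inr (Sum.inl i) => w i
    | Sum.inr (Sum.inr (Sum.inl p)) => cross3 (n p.1) (n p.2)
    | Sum.inr (Sum.inr (Sum.inr q)) => cp n q.1
  let C : ι → ℝ := fun i => match i with
    | Sum.inl _ => 0
    | Sum.inr (Sum.inl _) => 0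
    | Sum.inr (Sum.inr (Sum.inl _)) => 0
    | Sum.inr (Sum.inr (Sum.inr q)) => if q.2 then 1 else -1
  obtain ⟨x, hxb, hx⟩ := avoid W C v hr
  have x1 : x ≠ 0 := by
    rintro rfl
    exact hx (Sum.inl ()) hw0 (by simp [C])
  have x2 : ∀ i, cross3 (n i) x ≠ 0 := fun i => cross_ne_of (h.c1 i) (hwn i) (hx (Sum.inr (Sum.inl i)) (hw i))
  have x3 : ∀ i j, i < j → det3 (n i) (n j) x ≠ 0 := fun i j hij =>
    hx (Sum.inr (Sum.inr (Sum.inl (i, j)))) (h.c2 i j hij)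
  have x4 : ∀ i j k, i < j → j < k → ∀ b1 b2 b3 b4 : Bool, ∀ u : E3, lf n (i, b1) u = 1 → lf n (j, b2) u = 1 →
      lf n (k, b3) u = 1 → (if b4 then inner ℝ x u else -inner ℝ x u) ≠ 1 := by
    intro i j k hij hjk b1 b2 b3 b4 u h1 h2 h3 h4
    have hu : cp n ((i, b1), (j, b2), (k, b3)) = u := cp_eq h hij hjk h1 h2 h3
    have hu0 : u ≠ 0 := by
      rintro rfl
      simp [lf] at h1
    have hW : W (Sum.inr (Sum.inr (Sum.inr (((i, b1), (j, b2), (k, b3)), b4)))) = u := hu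
    have := hx (Sum.inr (Sum.inr (Sum.inr (((i, b1), (j, b2), (k, b3)), b4)))) (by rw [hW]; exact hu0)
    apply this
    rw [hW]
    show inner ℝ u x = if b4 then 1 else -1
    rw [real_inner_comm]
    cases b4 <;> simp at h4 ⊢ <;> linarith
  refine ⟨x, hxb, ?_, ?_, ?_, ?_⟩
  · intro i
    refine Fin.lastCases ?_ (fun i => ?_) i
    · simpa using x1
    · simpa using h.c1 i
  · intro i j hij
    obtain ⟨i, rfl⟩ := Fin.exists_castSucc_eq.2 (ne_of_lt (lt_of_lt_of_le hij (Fin.le_last j)))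
    revert hij
    refine Fin.lastCases ?_ (fun j => ?_) j
    · intro _
      simpa using x2 i
    · intro hij
      simpa using h.c2 i j (by simpa using hij)
  · intro i j k hij hjk
    obtain ⟨j, rfl⟩ := Fin.exists_castSucc_eq.2 (ne_of_lt (lt_of_lt_of_le hjk (Fin.le_last k)))
    obtain ⟨i, rfl⟩ := Fin.exists_castSucc_eq.2 (ne_of_lt (lt_of_lt_of_le hij (Fin.le_last _)))
    revert hjk
    refine Fin.lastCases ?_ (fun k => ?_) k
    · intro _
      simpa using x3 i j (by simpa using hij)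
    · intro hjk
      simpa using h.c3 i j k (by simpa using hij) (by simpa using hjk)
  · intro i j k l hij hjk hkl b1 b2 b3 b4 u
    obtain ⟨k, rfl⟩ := Fin.exists_castSucc_eq.2 (ne_of_lt (lt_of_lt_of_le hkl (Fin.le_last l)))
    obtain ⟨j, rfl⟩ := Fin.exists_castSucc_eq.2 (ne_of_lt (lt_of_lt_of_le hjk (Fin.le_last _)))
    obtain ⟨i, rfl⟩ := Fin.exists_castSucc_eq.2 (ne_of_lt (lt_of_lt_of_le hij (Fin.le_last _)))
    have hij' : i < j := by simpa using hij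
    have hjk' : j < k := by simpa using hjk
    revert hkl
    refine Fin.lastCases ?_ (fun l => ?_) l
    · rintro - ⟨h1, h2, h3, h4⟩
      rw [lf_castSucc] at h1 h2 h3
      rw [lf_last] at h4
      exact x4 i j k hij' hjk' b1 b2 b3 b4 u h1 h2 h3 h4
    · rintro hkl ⟨h1, h2, h3, h4⟩
      rw [lf_castSucc] at h1 h2 h3 h4
      exact h.c4 i j k l hij' hjk' (by simpa using hkl) b1 b2 b3 b4 u ⟨h1, h2, h3, h4⟩

theorem exists_cnd {r : ℝ} (hr : 0 < r) : ∀ (N : ℕ) (v : Fin N → E3), ∃ n : Fin N → E3, (∀ i, n i ∈ Metric.ball (v i) r) ∧ Cnd n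
  | 0, v => ⟨v, fun i => i.elim0, ⟨fun i => i.elim0, fun i => i.elim0, fun i => i.elim0, fun i => i.elim0⟩⟩
  | N + 1, v => by
    obtain ⟨n, h1, h2⟩ := exists_cnd hr N (fun i => v i.castSucc)
    obtain ⟨x, hx, h3⟩ := step h2 (v (Fin.last N)) hr
    refine ⟨_, fun i => ?_, h3⟩
    refine Fin.lastCases ?_ (fun i => ?_) i
    · simpa using hx
    · simpa using h1 i

theorem Cnd.det_ne {N : ℕ} {n : Fin N → E3} (h : Cnd n) {i j k : Fin N} (hij : i ≠ j) (hjk : j ≠ k) (hik : i ≠ k) :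
    det3 (n i) (n j) (n k) ≠ 0 := by
  have s : ∀ a b c : E3, det3 a b c ≠ 0 → det3 b a c ≠ 0 := fun a b c h => by rw [det3_swap]; exact neg_ne_zero.2 h
  have t : ∀ a b c : E3, det3 a b c ≠ 0 → det3 b c a ≠ 0 := fun a b c h => by rw [← det3_rot]; exact h
  rcases lt_or_gt_of_ne hij with a | a <;> rcases lt_or_gt_of_ne hjk with b | b <;> rcases lt_or_gt_of_ne hik with c | c
  · exact h.c3 _ _ _ a b
  · exact h.c3 _ _ _ a b
  · -- i < k < j
    exact s _ _ _ (t _ _ _ (t _ _ _ (h.c3 _ _ _ c b)))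
  · -- k < i < j
    exact t _ _ _ (h.c3 _ _ _ c a)
  · -- j < i < k
    exact s _ _ _ (h.c3 _ _ _ a c)
  · -- j < k < i
    exact t _ _ _ (t _ _ _ (h.c3 _ _ _ b c))
  · exact absurd (b.trans a) (not_lt.2 c.le)
  · -- k < j < i
    exact s _ _ _ (t _ _ _ (h.c3 _ _ _ b a))

theorem det_nn {N : ℕ} {n : Fin N → E3} (h : Cnd n) {α β γ : Fin N × Bool} (hij : α.1 ≠ β.1) (hjk : β.1 ≠ γ.1)
    (hik : α.1 ≠ γ.1) : det3 (nn n α) (nn n β) (nn n γ) ≠ 0 := by
  have hd := h.det_ne hij hjk hik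
  have e : ∀ (α : Fin N × Bool), ∃ s : ℝ, s ≠ 0 ∧ nn n α = s • n α.1 := by
    rintro ⟨a, b⟩
    cases b
    · exact ⟨-1, by norm_num, by simp [nn]⟩
    · exact ⟨1, by norm_num, by simp [nn]⟩
  obtain ⟨s1, h1, e1⟩ := e α
  obtain ⟨s2, h2, e2⟩ := e β
  obtain ⟨s3, h3, e3⟩ := e γ
  rw [e1, e2, e3, det3_smul, det3, cross3_smul, inner_smul_left]
  simp only [conj_trivial]
  exact mul_ne_zero h3 (mul_ne_zero (mul_ne_zero h1 h2) hd)

theorem no_four_cnd {N : ℕ} {n : Fin N → E3} (h : Cnd n) {α β γ δ : Fin N × Bool} (h12 : α ≠ β) (h13 : α ≠ γ)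
    (h14 : α ≠ δ) (h23 : β ≠ γ) (h24 : β ≠ δ) (h34 : γ ≠ δ) (u : E3) :
    ¬ (lf n α u = 1 ∧ lf n β u = 1 ∧ lf n γ u = 1 ∧ lf n δ u = 1) := by
  rintro ⟨g1, g2, g3, g4⟩
  have ne : ∀ {α β : Fin N × Bool}, α ≠ β → lf n α u = 1 → lf n β u = 1 → α.1 ≠ β.1 := by
    intro α β hne h1 h2 h3
    obtain ⟨a, b⟩ := α
    obtain ⟨a', b'⟩ := β
    simp only at h3
    subst h3
    cases b <;> cases b' <;> simp [lf, nn] at hne h1 h2 <;> linarith
  have m12 := ne h12 g1 g2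
  have m13 := ne h13 g1 g3
  have m14 := ne h14 g1 g4
  have m23 := ne h23 g2 g3
  have m24 := ne h24 g2 g4
  have m34 := ne h34 g3 g4
  let s : Finset (Fin N) := {α.1, β.1, γ.1, δ.1}
  have hs : s.card = 4 := by
    rw [Finset.card_eq_succ]
    refine ⟨α.1, {β.1, γ.1, δ.1}, by simp [m12, m13, m14], rfl, ?_⟩
    rw [Finset.card_eq_three]
    exact ⟨_, _, _, m23, m24, m34, rfl⟩
  have hex : ∀ i ∈ s, ∃ b : Bool, lf n (i, b) u = 1 := by
    intro i hi
    simp only [s, Finset.mem_insert, Finset.mem_singleton] at hi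
    rcases hi with rfl | rfl | rfl | rfl
    exacts [⟨_, g1⟩, ⟨_, g2⟩, ⟨_, g3⟩, ⟨_, g4⟩]
  let o := s.orderEmbOfFin hs
  have hm : ∀ k, o k ∈ s := fun k => s.orderEmbOfFin_mem hs k
  obtain ⟨b0, k0⟩ := hex _ (hm 0)
  obtain ⟨b1, k1⟩ := hex _ (hm 1)
  obtain ⟨b2, k2⟩ := hex _ (hm 2)
  obtain ⟨b3, k3⟩ := hex _ (hm 3)
  exact h.c4 (o 0) (o 1) (o 2) (o 3) (o.lt_iff_lt.2 (by decide)) (o.lt_iff_lt.2 (by decide)) (o.lt_iff_lt.2 (by decide))
    b0 b1 b2 b3 u ⟨k0, k1, k2, k3⟩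

end Pool.Agent.H47F
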