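import Mathlib

/-!
# H47F, module M: `(pi/4) muH[2] <= area` in the plane (Vitali covering by small discs)
-/

set_option autoImplicit false
open MeasureTheory Measure Set Filter Metric
open scoped ENNReal NNReal Topology

namespace Pool.Agent.H47F

/-- The plane. -/
abbrev E2 := EuclideanSpace ℝ (Fin 2)

/-- covering of an open set by countably many disjoint small discs inside it -/
theorem disc_cover (U : Set E2) (hU : IsOpen U) {δ : ℝ} (hδ : 0 < δ) :
    ∃ t : Set E2, ∃ r : E2 → ℝ, t.Countable ∧ (∀ x ∈ t, 0 < r x ∧ r x < δ) ∧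
      (∀ x ∈ t, closedBall x (r x) ⊆ U) ∧
      volume (U \ ⋃ x ∈ t, closedBall x (r x)) = 0 ∧
      t.PairwiseDisjoint (fun x => closedBall x (r x)) := by
  obtain ⟨t, r, ht, hts, hr, h0, hd⟩ := Besicovitch.exists_disjoint_closedBall_covering_ae
    (volume : Measure E2) (fun x => {r : ℝ | closedBall x r ⊆ U}) U
    (by
      intro x hx ε hε
      obtain ⟨ρ, hρ, hb⟩ := Metric.isOpen_iff.1 hU x hx
      refine ⟨min (ρ / 2) (ε / 2), ?_, ?_, ?_⟩
      · refine (closedBall_subset_ball ?_).trans hb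
        exact lt_of_le_of_lt (min_le_left _ _) (by linarith)
      · exact lt_min (by linarith) (by linarith)
      · exact lt_of_le_of_lt (min_le_right _ _) (by linarith))
    (fun _ => δ) (fun _ _ => hδ)
  refine ⟨t, r, ht, fun x hx => ⟨(hr x hx).2.1, (hr x hx).2.2⟩, fun x hx => (hr x hx).1, h0, hd⟩

theorem vol_disc (x : E2) {r : ℝ} (hr : 0 ≤ r) :
    volume (closedBall x r) = ENNReal.ofReal (Real.pi * r ^ 2) := by
  rw [EuclideanSpace.volume_closedBall_fin_two, ← ENNReal.ofReal_pow hr,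
    ← ENNReal.ofReal_mul (by positivity)]
  congr 1
  ring

theorem ediam_disc_le (x : E2) {r : ℝ} (hr : 0 ≤ r) :
    ediam (closedBall x r) ≤ ENNReal.ofReal (2 * r) := by
  refine Metric.ediam_le_of_forall_dist_le (fun y hy z hz => ?_)
  have h1 := mem_closedBall.1 hy
  have h2 := mem_closedBall'.1 hz
  linarith [dist_triangle y x z]

theorem ediam_disc (x : E2) {r : ℝ} (hr : 0 ≤ r) :
    ENNReal.ofReal (Real.pi / 4) * (ediam (closedBall x r)) ^ (2 : ℝ) ≤
      volume (closedBall x r) := by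
  have h1 := ediam_disc_le x hr
  rw [vol_disc x hr]
  calc ENNReal.ofReal (Real.pi / 4) * (ediam (closedBall x r)) ^ (2 : ℝ)
      ≤ ENNReal.ofReal (Real.pi / 4) * (ENNReal.ofReal (2 * r)) ^ (2 : ℝ) := by gcongr
    _ = ENNReal.ofReal (Real.pi / 4) * ENNReal.ofReal ((2 * r) ^ 2) := by
        rw [ENNReal.rpow_two, ← ENNReal.ofReal_pow (by positivity)]
    _ = ENNReal.ofReal (Real.pi * r ^ 2) := by
        rw [← ENNReal.ofReal_mul (by positivity)]
        congr 1
        ring
    _ ≤ _ := le_rfl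

/-- `muH[2]` in the plane is a multiple of the area -/
theorem muH_eq : ∃ c : ℝ≥0, (μH[2] : Measure E2) = c • (volume : Measure E2) := by
  have h := isAddLeftInvariant_eq_smul (μH[(2 : ℕ)] : Measure E2) (volume : Measure E2)
  exact ⟨_, by simpa using h⟩

theorem muH_open (U : Set E2) (hU : IsOpen U) :
    ENNReal.ofReal (Real.pi / 4) * μH[2] U ≤ volume U := by
  obtain ⟨c, hc⟩ := muH_eq
  have hδ : ∀ n : ℕ, (0 : ℝ) < 1 / ((n : ℝ) + 1) := fun n => Nat.one_div_pos_of_nat
  choose t r ht hr hsub h0 hdisj using fun n : ℕ => disc_cover U hU (hδ n)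
  set S : Set E2 := ⋂ n, ⋃ x ∈ t n, closedBall x (r n x) with hS
  have hnull : μH[2] (U \ S) = 0 := by
    rw [hc, Measure.smul_apply]
    have : volume (U \ S) = 0 := by
      rw [hS, sdiff_iInter]
      exact measure_iUnion_null h0
    rw [this]
    simp
  have h1 : μH[2] U ≤ μH[2] (U ∩ S) := by
    calc μH[2] U = μH[2] ((U ∩ S) ∪ (U \ S)) := by rw [inter_union_sdiff]
      _ ≤ μH[2] (U ∩ S) + μH[2] (U \ S) := measure_union_le _ _
      _ = μH[2] (U ∩ S) := by rw [hnull, add_zero]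
  have : ∀ n, Countable (t n) := fun n => (ht n).to_subtype
  have h2 : μH[2] (U ∩ S) ≤ liminf (fun n : ℕ => ∑' x : t n,
      ediam (closedBall (x : E2) (r n x)) ^ (2 : ℝ)) atTop := by
    refine hausdorffMeasure_le_liminf_tsum (2 : ℝ) (U ∩ S)
      (fun n : ℕ => ENNReal.ofReal (2 * (1 / ((n : ℝ) + 1)))) ?_
      (fun n (x : t n) => closedBall (x : E2) (r n x)) ?_ ?_
    · have : Tendsto (fun n : ℕ => 2 * (1 / ((n : ℝ) + 1))) atTop (𝓝 (2 * 0)) :=
        tendsto_one_div_add_atTop_nhds_zero_nat.const_mul 2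
      have h3 := ENNReal.tendsto_ofReal this
      simpa using h3
    · refine Eventually.of_forall fun n x => ?_
      refine (ediam_disc_le _ (hr n x x.2).1.le).trans ?_
      exact ENNReal.ofReal_le_ofReal (by linarith [(hr n x x.2).2])
    · refine Eventually.of_forall fun n y hy => ?_
      have h3 : y ∈ ⋃ x ∈ t n, closedBall x (r n x) := mem_iInter.1 hy.2 n
      obtain ⟨x, hx, hyx⟩ := mem_iUnion₂.1 h3
      exact mem_iUnion.2 ⟨⟨x, hx⟩, hyx⟩
  have h3 : ∀ n, ENNReal.ofReal (Real.pi / 4) * ∑' x : t n,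
      ediam (closedBall (x : E2) (r n x)) ^ (2 : ℝ) ≤ volume U := by
    intro n
    rw [← ENNReal.tsum_mul_left]
    calc ∑' x : t n, ENNReal.ofReal (Real.pi / 4) * ediam (closedBall (x : E2) (r n x)) ^ (2 : ℝ)
        ≤ ∑' x : t n, volume (closedBall (x : E2) (r n x)) :=
          ENNReal.tsum_le_tsum fun x => ediam_disc _ (hr n x x.2).1.le
      _ = volume (⋃ x ∈ t n, closedBall x (r n x)) :=
          (measure_biUnion (ht n) (hdisj n) (fun x _ => isClosed_closedBall.measurableSet)).symm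
      _ ≤ volume U := measure_mono (iUnion₂_subset fun x hx => hsub n x hx)
  have hpi : ENNReal.ofReal (Real.pi / 4) ≠ 0 := by
    simp [Real.pi_pos]
  have hpi' : ENNReal.ofReal (Real.pi / 4) ≠ ∞ := ENNReal.ofReal_ne_top
  have h4 : ∀ n, ∑' x : t n, ediam (closedBall (x : E2) (r n x)) ^ (2 : ℝ) ≤
      (ENNReal.ofReal (Real.pi / 4))⁻¹ * volume U := by
    intro n
    rw [mul_comm, ← div_eq_mul_inv, ENNReal.le_div_iff_mul_le (Or.inl hpi) (Or.inl hpi'), mul_comm]
    exact h3 n
  have h5 : μH[2] U ≤ (ENNReal.ofReal (Real.pi / 4))⁻¹ * volume U := by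
    refine h1.trans (h2.trans ?_)
    refine (liminf_le_liminf (Eventually.of_forall h4)).trans ?_
    simp
  calc ENNReal.ofReal (Real.pi / 4) * μH[2] U
      ≤ ENNReal.ofReal (Real.pi / 4) * ((ENNReal.ofReal (Real.pi / 4))⁻¹ * volume U) := by gcongr
    _ = volume U := by
        rw [← mul_assoc, ENNReal.mul_inv_cancel hpi hpi', one_mul]

/-- module M, plane version -/
theorem muH_le (s : Set E2) : ENNReal.ofReal (Real.pi / 4) * μH[2] s ≤ volume s := by
  obtain ⟨c, hc⟩ := muH_eq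
  have h := muH_open (ball 0 1) isOpen_ball
  rw [hc] at h ⊢
  rw [Measure.smul_apply] at h ⊢
  have hb : volume (ball (0 : E2) 1) ≠ 0 := (isOpen_ball.measure_pos _ ⟨0, by simp⟩).ne'
  have hb' : volume (ball (0 : E2) 1) ≠ ∞ := measure_ball_lt_top.ne
  have h2 : ENNReal.ofReal (Real.pi / 4) * (c : ℝ≥0∞) ≤ 1 := by
    have h3 : (ENNReal.ofReal (Real.pi / 4) * (c : ℝ≥0∞)) * volume (ball (0 : E2) 1) ≤
        1 * volume (ball (0 : E2) 1) := by
      rw [one_mul, mul_assoc]
      exact h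
    exact (ENNReal.mul_le_mul_iff_left hb hb').1 h3
  calc ENNReal.ofReal (Real.pi / 4) * (c • volume s)
      = (ENNReal.ofReal (Real.pi / 4) * (c : ℝ≥0∞)) * volume s := by
        rw [mul_assoc]; rfl
    _ ≤ 1 * volume s := by gcongr
    _ = volume s := one_mul _

end Pool.Agent.H47F
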