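import Pool.Agent.Lib.H47F.Proj
import Pool.Agent.Lib.H47A.EFDefs

/-! # H47F: length distances under Lipschitz maps -/

open MeasureTheory Set

namespace Pool.Agent.H47F

open H47A

theorem pl_map {S T : Set E3} {f : E3 → E3} {c : NNReal} (hc : c ≠ 0) (hf : LipschitzWith c f)
    (hS : ∀ z ∈ S, f z ∈ T) (x y : E3) : pl T (f x) (f y) ≤ c * pl S x y := by
  have hc' : (c : ENNReal) ≠ 0 := by simpa using hc
  have key : ∀ (γ : ℝ → E3) (_ : Continuous γ) (_ : γ 0 = x) (_ : γ 1 = y) (_ : ∀ t ∈ Set.Icc (0 : ℝ) 1, γ t ∈ S),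
      pl T (f x) (f y) ≤ c * eVariationOn γ (Set.Icc (0 : ℝ) 1) := by
    intro γ hγ h0 h1 h2
    have h3 : pl T (f x) (f y) ≤ eVariationOn (f ∘ γ) (Set.Icc (0 : ℝ) 1) := by
      unfold pl
      exact iInf_le_of_le (f ∘ γ) (iInf_le_of_le (hf.continuous.comp hγ) (iInf_le_of_le (by simp [h0])
        (iInf_le_of_le (by simp [h1]) (iInf_le_of_le (fun t ht => hS _ (h2 t ht)) le_rfl))))
    exact h3.trans ((hf.lipschitzOnWith (s := Set.univ)).comp_eVariationOn_le (fun _ _ => Set.mem_univ _))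
  unfold pl at key ⊢
  simp only [ENNReal.mul_iInf_of_ne hc' ENNReal.coe_ne_top]
  exact le_iInf fun γ => le_iInf fun hγ => le_iInf fun h0 => le_iInf fun h1 => le_iInf fun h2 => key γ hγ h0 h1 h2

end Pool.Agent.H47F
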