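import Mathlib

/-! # H47F: nearest point projection on compact convex sets, monotonicity of the surface measure -/

open MeasureTheory Set

namespace Pool.Agent.H47F

variable {E : Type*} [NormedAddCommGroup E] [InnerProductSpace ℝ E] [CompleteSpace E]

theorem exists_proj {K : Set E} (hc : IsClosed K) (hv : Convex ℝ K) (hn : K.Nonempty) (u : E) :
    ∃ v ∈ K, ∀ w ∈ K, inner ℝ (u - v) (w - v) ≤ 0 := by
  obtain ⟨v, hvK, h⟩ := exists_norm_eq_iInf_of_complete_convex hn hc.isComplete hv u
  exact ⟨v, hvK, (norm_eq_iInf_iff_real_inner_le_zero hv hvK).1 h⟩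

theorem proj_lip {K : Set E} {u v pu pv : E} (hpu : pu ∈ K) (hpv : pv ∈ K)
    (hu : ∀ w ∈ K, inner ℝ (u - pu) (w - pu) ≤ 0) (hv : ∀ w ∈ K, inner ℝ (v - pv) (w - pv) ≤ 0) :
    ‖pu - pv‖ ≤ ‖u - v‖ := by
  have h1 := hu pv hpv
  have h2 := hv pu hpu
  have h3 : inner ℝ (pu - pv) (pu - pv) ≤ inner ℝ (u - v) (pu - pv) := by
    have e1 : inner ℝ (u - pu) (pv - pu) + inner ℝ (v - pv) (pu - pv) =
        inner ℝ (pu - pv) (pu - pv) - inner ℝ (u - v) (pu - pv) := by
      have : pv - pu = -(pu - pv) := by abel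
      rw [this, inner_neg_right]
      have : inner ℝ (pu - pv) (pu - pv) = inner ℝ (u - v - ((u - pu) - (v - pv))) (pu - pv) := by
        congr 1; abel
      rw [this, inner_sub_left (u - v), inner_sub_left (u - pu)]
      ring
    linarith
  rw [real_inner_self_eq_norm_sq] at h3
  have h4 := real_inner_le_norm (u - v) (pu - pv)
  by_contra h
  push Not at h
  have h5 : 0 < ‖pu - pv‖ := (norm_nonneg _).trans_lt h
  nlinarith

/-- The projection on a compact convex set and its properties. -/
theorem exists_pr {K : Set E} (hc : IsClosed K) (hv : Convex ℝ K) (hn : K.Nonempty) :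
    ∃ p : E → E, LipschitzWith 1 p ∧ (∀ u, p u ∈ K) ∧ (∀ u v, v ∈ K → (∀ w ∈ K, inner ℝ (u - v) (w - v) ≤ 0) → p u = v) ∧
      (∀ u, ∀ w ∈ K, inner ℝ (u - p u) (w - p u) ≤ 0) := by
  choose p hp hp' using exists_proj hc hv hn
  refine ⟨p, ?_, hp, ?_, hp'⟩
  · refine LipschitzWith.of_dist_le_mul fun u v => ?_
    rw [dist_eq_norm, dist_eq_norm, NNReal.coe_one, one_mul]
    exact proj_lip (hp u) (hp v) (hp' u) (hp' v)
  · intro u v hv h
    have := proj_lip (hp u) hv (hp' u) h
    rw [sub_self, norm_zero] at this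
    exact sub_eq_zero.1 (norm_le_zero_iff.1 this)

theorem supp {K : Set E} (hc : IsClosed K) (hv : Convex ℝ K) (hi : (interior K).Nonempty) {x : E} (hx : x ∈ frontier K) :
    ∃ v : E, v ≠ 0 ∧ ∀ w ∈ K, inner ℝ v (w - x) ≤ 0 := by
  have hx' : x ∉ interior K := by rw [frontier] at hx; exact hx.2
  obtain ⟨f, hf⟩ := geometric_hahn_banach_open_point hv.interior isOpen_interior hx'
  have hle : ∀ w ∈ K, f w ≤ f x := by
    intro w hw
    have hcl : K ⊆ closure (interior K) := by
      rw [hv.closure_interior_eq_closure_of_nonempty_interior hi]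
      exact subset_closure
    have : closure (interior K) ⊆ {w | f w ≤ f x} :=
      closure_minimal (fun a ha => (hf a ha).le) (isClosed_le f.continuous continuous_const)
    exact this (hcl hw)
  refine ⟨(InnerProductSpace.toDual ℝ E).symm f, ?_, ?_⟩
  · intro h0
    obtain ⟨a, ha⟩ := hi
    have := hf a ha
    have h1 : f = 0 := by
      have := congrArg (InnerProductSpace.toDual ℝ E) h0
      simpa using this
    rw [h1] at this
    simp at this
  · intro w hw
    rw [inner_sub_right, InnerProductSpace.toDual_symm_apply, InnerProductSpace.toDual_symm_apply]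
    linarith [hle w hw]

/-- The projection maps the boundary of a larger body onto the boundary. -/
theorem surj_bd {K P : Set E} (hc : IsCompact K) (hv : Convex ℝ K) (hi : (interior K).Nonempty)
    (hP : IsCompact P) (hKP : K ⊆ P) {p : E → E}
    (hp : ∀ u v, v ∈ K → (∀ w ∈ K, inner ℝ (u - v) (w - v) ≤ 0) → p u = v) {x : E} (hx : x ∈ frontier K) :
    ∃ y ∈ frontier P, p y = x := by
  obtain ⟨v, hv0, hvx⟩ := supp hc.isClosed hv hi hx
  have hxK : x ∈ K := hc.isClosed.frontier_subset hx
  set S : Set ℝ := {t | 0 ≤ t ∧ x + t • v ∈ P} with hS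
  have hcl : IsClosed S := by
    refine (isClosed_le continuous_const continuous_id).inter ?_
    exact hP.isClosed.preimage (by fun_prop)
  have hb : BddAbove S := by
    obtain ⟨R, hR⟩ := hP.isBounded.exists_norm_le
    refine ⟨(R + ‖x‖) / ‖v‖, ?_⟩
    rintro t ⟨ht, htP⟩
    have h1 := hR _ htP
    have h2 : ‖t • v‖ ≤ ‖x + t • v‖ + ‖x‖ := by
      have : t • v = (x + t • v) - x := by abel
      calc ‖t • v‖ = ‖(x + t • v) - x‖ := by rw [← this]
        _ ≤ _ := norm_sub_le _ _
    rw [norm_smul, Real.norm_of_nonneg ht] at h2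
    rw [le_div_iff₀ (norm_pos_iff.2 hv0)]
    linarith
  have hne : S.Nonempty := ⟨0, le_refl _, by simpa using hKP hxK⟩
  have hmem := hcl.csSup_mem hne hb
  set t := sSup S with ht
  refine ⟨x + t • v, ?_, ?_⟩
  · rw [hP.isClosed.frontier_eq]
    refine ⟨hmem.2, fun hint => ?_⟩
    have hopen : IsOpen {s : ℝ | x + s • v ∈ interior P} := isOpen_interior.preimage (by fun_prop)
    obtain ⟨ε, hε, hball⟩ := Metric.isOpen_iff.1 hopen t hint
    have h3 : t + ε / 2 ∈ S := by
      refine ⟨by linarith [hmem.1], interior_subset (hball ?_)⟩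
      simp [abs_of_pos, hε]
    have := le_csSup hb h3
    linarith
  · refine hp _ _ hxK fun w hw => ?_
    rw [add_sub_cancel_left, inner_smul_left]
    exact mul_nonpos_of_nonneg_of_nonpos (by simpa using hmem.1) (hvx w hw)

/-- Points of a larger boundary are projected into the boundary. -/
theorem maps_bd {K P : Set E} (hc : IsClosed K) (hKP : K ⊆ P) {p : E → E}
    (hpK : ∀ u, p u ∈ K) (hp : ∀ u v, v ∈ K → (∀ w ∈ K, inner ℝ (u - v) (w - v) ≤ 0) → p u = v)
    (hp' : ∀ u, ∀ w ∈ K, inner ℝ (u - p u) (w - p u) ≤ 0) {y : E} (hy : y ∈ frontier P) : p y ∈ frontier K := by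
  rw [hc.frontier_eq]
  refine ⟨hpK y, fun hint => ?_⟩
  obtain ⟨ε, hε, hball⟩ := Metric.isOpen_iff.1 isOpen_interior _ hint
  by_cases h0 : y - p y = 0
  · have : y = p y := sub_eq_zero.1 h0
    rw [← this] at hint
    exact hy.2 (interior_mono hKP hint)
  · have hpos : 0 < ‖y - p y‖ := norm_pos_iff.2 h0
    set δ := ε / 2 / ‖y - p y‖ with hδ
    have hδ0 : 0 < δ := by positivity
    have hmem : p y + δ • (y - p y) ∈ K := by
      refine interior_subset (hball ?_)
      rw [Metric.mem_ball, dist_eq_norm, add_sub_cancel_left, norm_smul, Real.norm_of_nonneg hδ0.le, hδ,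
        div_mul_cancel₀ _ hpos.ne']
      linarith
    have := hp' y _ hmem
    rw [add_sub_cancel_left, inner_smul_right, real_inner_self_eq_norm_sq] at this
    have : 0 < δ * ‖y - p y‖ ^ 2 := by positivity
    linarith

theorem haus_mono [MeasurableSpace E] [BorelSpace E] {K P : Set E} (hc : IsCompact K) (hv : Convex ℝ K)
    (hi : (interior K).Nonempty) (hP : IsCompact P) (hKP : K ⊆ P) :
    Measure.hausdorffMeasure 2 (frontier K) ≤ Measure.hausdorffMeasure 2 (frontier P) := by
  obtain ⟨p, hlip, hpK, hp, hp'⟩ := exists_pr hc.isClosed hv (hi.mono interior_subset)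
  have h1 : frontier K ⊆ p '' frontier P := by
    intro x hx
    obtain ⟨y, hy, hyx⟩ := surj_bd hc hv hi hP hKP hp hx
    exact ⟨y, hy, hyx⟩
  calc Measure.hausdorffMeasure 2 (frontier K) ≤ Measure.hausdorffMeasure 2 (p '' frontier P) := measure_mono h1
    _ ≤ (1 : NNReal) ^ (2 : ℝ) * Measure.hausdorffMeasure 2 (frontier P) :=
        hlip.hausdorffMeasure_image_le (by norm_num) _
    _ = _ := by simp

end Pool.Agent.H47F
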